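import Pool.Agent.H55.FU.StmU
import Pool.Agent.H55.FE.Num

set_option autoImplicit false

/-!
# Project FU (helper55): the fourth numerical statement
-/

namespace Pool.Agent.H93.FU

open Pool.Agent.W608.PR Pool.Agent.H55.FU

/-- a product estimate for binomial coefficients -/
theorem choose_up (n k : ℕ) : k.factorial * n.choose k ≤ n ^ k := by
  rw [← Nat.descFactorial_eq_factorial_mul_choose]
  exact Nat.descFactorial_le_pow n k

theorem self_pow_le (n : ℕ) : n ^ n ≤ 3 ^ n * n.factorial := by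
  have h1 := Real.pow_div_factorial_le_exp (n : ℝ) (Nat.cast_nonneg n) n
  have h2 : Real.exp (n : ℝ) ≤ 3 ^ n := by
    have h3 : Real.exp (n : ℝ) = Real.exp 1 ^ n := by
      rw [← Real.exp_nat_mul, mul_one]
    rw [h3]
    exact pow_le_pow_left₀ (Real.exp_pos 1).le (by linarith [Real.exp_one_lt_d9]) n
  have h4 : (0 : ℝ) < n.factorial := by exact_mod_cast Nat.factorial_pos n
  have h5 : (n : ℝ) ^ n ≤ 3 ^ n * n.factorial := by
    rw [div_le_iff₀ h4] at h1
    exact h1.trans (mul_le_mul_of_nonneg_right h2 h4.le)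
  exact_mod_cast h5

theorem bern {k m d e : ℕ} (h1 : 2 * k * m ≤ d) (hd : 1 ≤ d) (he : d ≤ e + m) (hm : m ≤ d) :
    d ^ k ≤ 2 * (e + 1) ^ k := by
  have hd0 : (0 : ℝ) < d := by exact_mod_cast hd
  have hmd : (m : ℝ) / d ≤ 1 := by
    rw [div_le_one hd0]
    exact_mod_cast hm
  have key : (1 : ℝ) / 2 ≤ (1 + -((m : ℝ) / d)) ^ k := by
    have h2 := one_add_mul_le_pow (a := -((m : ℝ) / d)) (by linarith) k
    have h3 : (k : ℝ) * ((m : ℝ) / d) ≤ 1 / 2 := by
      rw [← mul_div_assoc, div_le_iff₀ hd0]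
      have : (2 : ℝ) * k * m ≤ d := by exact_mod_cast h1
      linarith
    linarith
  have t : (d : ℝ) * (1 + -((m : ℝ) / d)) ≤ (e : ℝ) + 1 := by
    have h3 : (d : ℝ) ≤ e + m := by exact_mod_cast he
    have h5 : (d : ℝ) * (1 + -((m : ℝ) / d)) = d - m := by
      field_simp
      ring
    linarith
  have h6 : (d : ℝ) ^ k * (1 / 2) ≤ ((e : ℝ) + 1) ^ k := by
    calc (d : ℝ) ^ k * (1 / 2) ≤ (d : ℝ) ^ k * (1 + -((m : ℝ) / d)) ^ k :=
          mul_le_mul_of_nonneg_left key (by positivity)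
      _ = ((d : ℝ) * (1 + -((m : ℝ) / d))) ^ k := by rw [mul_pow]
      _ ≤ ((e : ℝ) + 1) ^ k := pow_le_pow_left₀ (by
          apply mul_nonneg (Nat.cast_nonneg _)
          linarith) t k
  have h7 : (d : ℝ) ^ k ≤ 2 * ((e : ℝ) + 1) ^ k := by linarith
  exact_mod_cast h7

section

variable {E m : ℕ} (hE : 1 ≤ E) (hm : 2 ≤ m) (hc : E = 1 ∨ E + 3 ≤ m)

include hE hm hc

omit hE in
theorem sz_up : (E + 1).factorial * sz E m ≤ 2 ^ (E + 1) * m ^ (E + 1) := by
  refine (choose_up (m + E) (E + 1)).trans ?_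
  rw [← mul_pow]
  exact Nat.pow_le_pow_left (by omega) _

omit hE in
theorem Sz_up : (E + 2).factorial * Sz E m ≤ 2 ^ (E + 2) * m ^ (E + 2) := by
  refine (choose_up (m + E + 1) (E + 2)).trans ?_
  rw [← mul_pow]
  exact Nat.pow_le_pow_left (by omega) _

omit hE in
theorem Nn_up : (E + 1).factorial * Nn E (2 * (E + 1) * m + m) ≤
    4 ^ (E + 1) * (m ^ (E + 1) * m ^ (E + 1)) := by
  refine (choose_up _ (E + 1)).trans ?_
  rw [← mul_pow, ← mul_pow]
  refine Nat.pow_le_pow_left ?_ _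
  rcases hc with rfl | h
  · nlinarith
  · nlinarith

theorem dm_bd : 8 * dm E (2 * (E + 1) * m + m) ≤ 32 ^ (E + 1) * (m ^ 2 * m ^ (E + 1)) := by
  have h1 : (E + 2).factorial * dm E (2 * (E + 1) * m + m) ≤ (2 * E + 5) ^ (E + 2) * m ^ (E + 2) := by
    refine (choose_up _ (E + 2)).trans ?_
    rw [← mul_pow]
    refine Nat.pow_le_pow_left ?_ _
    have : E + 2 ≤ 2 * m := by omega
    nlinarith
  have h2 : 8 * (2 * E + 5) ^ (E + 2) ≤ 32 ^ (E + 1) * m * (E + 2).factorial := by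
    rcases hc with rfl | h
    · norm_num [Nat.factorial]
      omega
    · by_cases hE1 : E = 1
      · subst hE1
        norm_num [Nat.factorial]
        omega
      have hE2 : 2 ≤ E := by omega
      have h3 : (2 * E + 5) ^ (E + 2) ≤ 9 ^ (E + 2) * (E + 2).factorial := by
        calc (2 * E + 5) ^ (E + 2) ≤ (3 * (E + 2)) ^ (E + 2) := Nat.pow_le_pow_left (by omega) _
          _ = 3 ^ (E + 2) * (E + 2) ^ (E + 2) := by rw [mul_pow]
          _ ≤ 3 ^ (E + 2) * (3 ^ (E + 2) * (E + 2).factorial) :=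
            Nat.mul_le_mul_left _ (self_pow_le (E + 2))
          _ = (3 * 3) ^ (E + 2) * (E + 2).factorial := by rw [mul_pow]; ring
          _ = 9 ^ (E + 2) * (E + 2).factorial := by norm_num
      have h4 : 8 * 9 ^ (E + 2) ≤ 32 ^ (E + 1) * 5 := by
        have h5 : ∀ j : ℕ, 8 * 9 ^ (j + 4) ≤ 32 ^ (j + 3) * 5 := by
          intro j
          induction j with
          | zero => norm_num
          | succ j ih =>
            calc 8 * 9 ^ (j + 1 + 4) = 9 * (8 * 9 ^ (j + 4)) := by ring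
              _ ≤ 32 * (32 ^ (j + 3) * 5) := Nat.mul_le_mul (by norm_num) ih
              _ = 32 ^ (j + 1 + 3) * 5 := by ring
        have h6 := h5 (E - 2)
        rwa [show E - 2 + 4 = E + 2 by omega, show E - 2 + 3 = E + 1 by omega] at h6
      calc 8 * (2 * E + 5) ^ (E + 2) ≤ 8 * (9 ^ (E + 2) * (E + 2).factorial) :=
            Nat.mul_le_mul_left _ h3
        _ = 8 * 9 ^ (E + 2) * (E + 2).factorial := by ring
        _ ≤ 32 ^ (E + 1) * 5 * (E + 2).factorial := Nat.mul_le_mul_right _ h4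
        _ ≤ 32 ^ (E + 1) * m * (E + 2).factorial :=
            Nat.mul_le_mul_right _ (Nat.mul_le_mul_left _ (by omega))
  refine le_of_mul_le_mul_left (?_ : (E + 2).factorial * _ ≤ (E + 2).factorial * _)
    (Nat.factorial_pos _)
  calc (E + 2).factorial * (8 * dm E (2 * (E + 1) * m + m))
      = 8 * ((E + 2).factorial * dm E (2 * (E + 1) * m + m)) := by ring
    _ ≤ 8 * ((2 * E + 5) ^ (E + 2) * m ^ (E + 2)) := Nat.mul_le_mul_left _ h1
    _ = 8 * (2 * E + 5) ^ (E + 2) * m ^ (E + 2) := by ring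
    _ ≤ 32 ^ (E + 1) * m * (E + 2).factorial * m ^ (E + 2) := Nat.mul_le_mul_right _ h2
    _ = (E + 2).factorial * (32 ^ (E + 1) * (m ^ 2 * m ^ (E + 1))) := by ring

omit hc in
theorem aa_up : aa E m + 1 ≤ 2 * m ^ E := by
  obtain ⟨E', rfl⟩ : ∃ E', E = E' + 1 := ⟨E - 1, by omega⟩
  have h1 : aa (E' + 1) m ≤ m ^ (E' + 1) := by
    unfold aa
    rw [show m - 1 + (E' + 1) = m + E' by omega]
    exact choose_le_pow' m E'
  have h2 : 1 ≤ m ^ (E' + 1) := Nat.one_le_pow _ _ (by omega)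
  omega

theorem Y_up : (E + 1).factorial * Yg E m (cA E m) ≤ 2 * 2 ^ (E + 1) * (m ^ E * m ^ (E + 1)) := by
  have h1 := sz_up hm hc
  have h2 := aa_up hE hm
  calc (E + 1).factorial * Yg E m (cA E m) = (aa E m + 1) * ((E + 1).factorial * sz E m) := by
        unfold Yg cA
        ring
    _ ≤ 2 * m ^ E * (2 ^ (E + 1) * m ^ (E + 1)) := Nat.mul_le_mul h2 h1
    _ = _ := by ring

omit hE in
theorem cB_up : (E + 1).factorial * cB E m ≤ 2 ^ (E + 1) * m * (m ^ (E + 1) * m ^ (E + 1)) := by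
  have h1 := sz_up hm hc
  have h2 := Sz_le_pow E m
  have h3 : aa (E + 1) m = sz E m := by
    unfold aa sz
    rw [show m - 1 + (E + 1) = m + E by omega]
  calc (E + 1).factorial * cB E m = ((E + 1).factorial * sz E m) * Sz E m := by
        unfold cB
        rw [h3]
        ring
    _ ≤ 2 ^ (E + 1) * m ^ (E + 1) * m ^ (E + 2) := Nat.mul_le_mul h1 h2
    _ = _ := by ring

end

theorem d_lo {E m d : ℕ} (hE : 1 ≤ E) (hm : 1 ≤ m) (hd : 64 ^ E * m ^ (2 * E + 2) ≤ d ^ E) :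
    64 * m ^ 2 ≤ d := by
  by_contra hcon
  push Not at hcon
  have h1 : d ^ E < (64 * m ^ 2) ^ E := Nat.pow_lt_pow_left hcon (by omega)
  have h2 : (64 * m ^ 2) ^ E ≤ 64 ^ E * m ^ (2 * E + 2) := by
    rw [mul_pow, ← pow_mul]
    exact Nat.mul_le_mul_left _ (Nat.pow_le_pow_right hm (by omega))
  omega

theorem stepU {E m e Z : ℕ} (hm : 1 ≤ m) (he : 2 * m ≤ e + 3)
    (hZ : 2 * ((m + E) * Z) ≤ (E + 1) * Nn E e) :
    (m - 1) * Nn E (e + 1) + (m + E) * Z ≤ (m + E) * Nn E e := by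
  have h1 := Nn_ratio E e
  obtain ⟨k, rfl⟩ : ∃ k, m = k + 1 := ⟨m - 1, by omega⟩
  rw [Nat.add_sub_cancel]
  generalize Nn E e = N at *
  generalize Nn E (e + 1) = N' at *
  obtain ⟨f, hf1, hf2⟩ : ∃ f, e + 1 = k + f ∧ k ≤ f := ⟨e + 1 - k, by omega, by omega⟩
  refine le_of_mul_le_mul_left (?_ : (e + 1) * _ ≤ (e + 1) * _) (by omega)
  have h2 : (e + 1) * ((k + 1 + E) * Z) ≤ (E + 1) * f * N := by
    have h4 : (e + 1) ≤ 2 * f := by omega
    calc (e + 1) * ((k + 1 + E) * Z) ≤ (2 * f) * ((k + 1 + E) * Z) := Nat.mul_le_mul_right _ h4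
      _ = f * (2 * ((k + 1 + E) * Z)) := by ring
      _ ≤ f * ((E + 1) * N) := Nat.mul_le_mul_left _ hZ
      _ = (E + 1) * f * N := by ring
  calc (e + 1) * (k * N' + (k + 1 + E) * Z) = k * (N' * (e + 1)) + (e + 1) * ((k + 1 + E) * Z) := by
        ring
    _ = k * (N * (e + E + 2)) + (e + 1) * ((k + 1 + E) * Z) := by rw [h1]
    _ ≤ k * (N * (e + E + 2)) + (E + 1) * f * N := Nat.add_le_add_left h2 _
    _ = (e + 1) * ((k + 1 + E) * N) := by
        rw [show e + E + 2 = (e + 1) + (E + 1) by ring, hf1]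
        ring

/-- the arithmetic of the first condition -/
theorem arith1 {k u m P q d W B : ℕ} {mE : ℕ} (hm : 1 ≤ m) (hk : 2 ≤ k) (hu : 4 ≤ u)
    (hq : 4 * (u * u) ≤ q) (hmE : m * mE = P) (hB : B = m ^ 2 * ((u * u) * (P * P)))
    (hBW : 256 * B ≤ W) (hqd : d * (q * (P * P)) ≤ W) :
    8 * m * (u * P * (k * P) + P * (k * P) + (m * (u * u * (P * P)) + m * (2 * u * (mE * P)) +
      u * m * (P * P) + d * (2 * u * (mE * P)))) ≤ k * W := by
  have hm2 : m ≤ m ^ 2 := by nlinarith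
  have hu2 : 4 * u ≤ u * u := Nat.mul_le_mul_right _ hu
  have hu3 : 16 ≤ u * u := by nlinarith
  have t1 : 8 * m * (u * P * (k * P)) ≤ 2 * k * B := by
    calc 8 * m * (u * P * (k * P)) = 2 * k * (m * ((4 * u) * (P * P))) := by ring
      _ ≤ 2 * k * (m ^ 2 * ((u * u) * (P * P))) :=
        Nat.mul_le_mul_left _ (Nat.mul_le_mul hm2 (Nat.mul_le_mul_right _ hu2))
      _ = 2 * k * B := by rw [hB]
  have t2 : 8 * m * (P * (k * P)) ≤ k * B := by
    calc 8 * m * (P * (k * P)) = k * (m * (8 * (P * P))) := by ring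
      _ ≤ k * (m ^ 2 * ((u * u) * (P * P))) :=
        Nat.mul_le_mul_left _ (Nat.mul_le_mul hm2 (Nat.mul_le_mul_right _ (by omega)))
      _ = k * B := by rw [hB]
  have t3 : 8 * m * (m * (u * u * (P * P))) = 8 * B := by
    rw [hB]
    ring
  have t4 : 8 * m * (m * (2 * u * (mE * P))) ≤ 4 * B := by
    calc 8 * m * (m * (2 * u * (mE * P))) = 4 * (m * ((4 * u) * ((m * mE) * P))) := by ring
      _ = 4 * (m * ((4 * u) * (P * P))) := by rw [hmE]
      _ ≤ 4 * (m ^ 2 * ((u * u) * (P * P))) :=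
        Nat.mul_le_mul_left _ (Nat.mul_le_mul hm2 (Nat.mul_le_mul_right _ hu2))
      _ = 4 * B := by rw [hB]
  have t5 : 8 * m * (u * m * (P * P)) ≤ 2 * B := by
    calc 8 * m * (u * m * (P * P)) = 2 * (m ^ 2 * ((4 * u) * (P * P))) := by ring
      _ ≤ 2 * (m ^ 2 * ((u * u) * (P * P))) :=
        Nat.mul_le_mul_left _ (Nat.mul_le_mul_left _ (Nat.mul_le_mul_right _ hu2))
      _ = 2 * B := by rw [hB]
  have t6 : 8 * m * (d * (2 * u * (mE * P))) ≤ W := by
    calc 8 * m * (d * (2 * u * (mE * P))) = d * ((4 * (4 * u)) * ((m * mE) * P)) := by ring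
      _ = d * ((4 * (4 * u)) * (P * P)) := by rw [hmE]
      _ ≤ d * (q * (P * P)) :=
        Nat.mul_le_mul_left _ (Nat.mul_le_mul_right _ ((Nat.mul_le_mul_left _ hu2).trans hq))
      _ ≤ W := hqd
  have t7 : 14 * B ≤ 7 * (k * B) := by
    calc 14 * B = 7 * (2 * B) := by ring
      _ ≤ 7 * (k * B) := Nat.mul_le_mul_left _ (Nat.mul_le_mul_right _ hk)
  have t8 : 2 * W ≤ k * W := Nat.mul_le_mul_right _ hk
  have t9 : 256 * (k * B) ≤ k * W := by
    calc 256 * (k * B) = k * (256 * B) := by ring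
      _ ≤ k * W := Nat.mul_le_mul_left _ hBW
  have t10 : 2 * k * B = 2 * (k * B) := by ring
  rw [t10] at t1
  have e1 : 8 * m * (u * P * (k * P) + P * (k * P) + (m * (u * u * (P * P)) + m * (2 * u * (mE * P)) +
      u * m * (P * P) + d * (2 * u * (mE * P)))) =
      8 * m * (u * P * (k * P)) + 8 * m * (P * (k * P)) + (8 * m * (m * (u * u * (P * P))) +
        8 * m * (m * (2 * u * (mE * P))) + 8 * m * (u * m * (P * P)) +
          8 * m * (d * (2 * u * (mE * P)))) := by ring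
  rw [e1, t3]
  generalize 8 * m * (u * P * (k * P)) = a1 at *
  generalize 8 * m * (P * (k * P)) = a2 at *
  generalize 8 * m * (m * (2 * u * (mE * P))) = a4 at *
  generalize 8 * m * (u * m * (P * P)) = a5 at *
  generalize 8 * m * (d * (2 * u * (mE * P))) = a6 at *
  generalize k * B = kB at *
  generalize k * W = kW at *
  omega

/-- the arithmetic of the last condition -/
theorem arith4 {k u m P q d W B D v : ℕ} {mE : ℕ} (hm : 1 ≤ m) (hu : 4 ≤ u) (hku : 2 * k ≤ u)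
    (hq : 4 * (u * u) ≤ q) (hmE : m * mE = P) (hB : B = m ^ 2 * ((u * u) * (P * P)))
    (hBW : 256 * B ≤ W) (hqd : d * (q * (P * P)) ≤ W) (hD : 8 * D ≤ v * (m ^ 2 * P))
    (hv : v * u = 64 * q) (hW2 : 64 * m ^ 2 * (q * (P * P)) ≤ W) :
    u * P * (D + d * (k * P)) + P * (k * P) + (m * (u * u * (P * P)) + m * (2 * u * (mE * P)) +
      u * m * (P * P) + d * (2 * u * (mE * P))) ≤ W := by
  have hm2 : m ≤ m ^ 2 := by nlinarith
  have hm3 : 1 ≤ m ^ 2 := Nat.one_le_pow _ _ hm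
  have hu2 : 4 * u ≤ u * u := Nat.mul_le_mul_right _ hu
  have hmEP : mE ≤ P := by
    rw [← hmE]
    exact Nat.le_mul_of_pos_left _ hm
  have t1 : 8 * (u * P * D) ≤ W := by
    calc 8 * (u * P * D) = u * P * (8 * D) := by ring
      _ ≤ u * P * (v * (m ^ 2 * P)) := Nat.mul_le_mul_left _ hD
      _ = (v * u) * (m ^ 2 * (P * P)) := by ring
      _ = 64 * m ^ 2 * (q * (P * P)) := by
        rw [hv]
        ring
      _ ≤ W := hW2
  have t2 : 8 * (u * P * (d * (k * P))) ≤ W := by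
    calc 8 * (u * P * (d * (k * P))) = d * ((4 * (u * (2 * k))) * (P * P)) := by ring
      _ ≤ d * (q * (P * P)) :=
        Nat.mul_le_mul_left _ (Nat.mul_le_mul_right _
          ((Nat.mul_le_mul_left _ (Nat.mul_le_mul_left _ hku)).trans hq))
      _ ≤ W := hqd
  have t3 : P * (k * P) ≤ B := by
    rw [hB]
    calc P * (k * P) = 1 * (k * (P * P)) := by ring
      _ ≤ m ^ 2 * ((u * u) * (P * P)) := Nat.mul_le_mul hm3 (Nat.mul_le_mul_right _ (by omega))
  have t4 : m * (u * u * (P * P)) ≤ B := by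
    rw [hB]
    exact Nat.mul_le_mul_right _ hm2
  have t5 : m * (2 * u * (mE * P)) ≤ B := by
    rw [hB]
    calc m * (2 * u * (mE * P)) = 1 * ((2 * u) * ((m * mE) * P)) := by ring
      _ = 1 * ((2 * u) * (P * P)) := by rw [hmE]
      _ ≤ m ^ 2 * ((u * u) * (P * P)) := Nat.mul_le_mul hm3 (Nat.mul_le_mul_right _ (by omega))
  have t6 : u * m * (P * P) ≤ B := by
    rw [hB]
    calc u * m * (P * P) = m * (u * (P * P)) := by ring
      _ ≤ m ^ 2 * ((u * u) * (P * P)) := Nat.mul_le_mul hm2 (Nat.mul_le_mul_right _ (by omega))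
  have t7 : 8 * (d * (2 * u * (mE * P))) ≤ W := by
    calc 8 * (d * (2 * u * (mE * P))) = d * ((4 * (4 * u)) * (mE * P)) := by ring
      _ ≤ d * (q * (P * P)) :=
        Nat.mul_le_mul_left _ (Nat.mul_le_mul ((Nat.mul_le_mul_left _ hu2).trans hq)
          (Nat.mul_le_mul_right _ hmEP))
      _ ≤ W := hqd
  rw [Nat.mul_add]
  generalize u * P * D = a1 at *
  generalize u * P * (d * (k * P)) = a2 at *
  generalize P * (k * P) = a3 at *
  generalize m * (u * u * (P * P)) = a4 at *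
  generalize m * (2 * u * (mE * P)) = a5 at *
  generalize u * m * (P * P) = a6 at *
  generalize d * (2 * u * (mE * P)) = a7 at *
  omega

/-- the arithmetic of the third condition -/
theorem arith3 {k u m P q d W B D v : ℕ} (hku : 2 * k ≤ u)
    (hB : B = m ^ 2 * ((u * u) * (P * P)))
    (hBW : 256 * B ≤ W) (hD : 8 * D ≤ v * (m ^ 2 * P))
    (hv : v * u = 64 * q) (hW2 : 64 * m ^ 2 * (q * (P * P)) ≤ W) (hd : 64 * m ^ 2 ≤ d) :
    m * (2 * u * (m * P) * (D + d * (k * P))) ≤ d * W := by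
  have t1 : 256 * (m * (2 * u * (m * P) * D)) ≤ d * W := by
    calc 256 * (m * (2 * u * (m * P) * D)) = 64 * m ^ 2 * ((u * P) * (8 * D)) := by ring
      _ ≤ d * ((u * P) * (v * (m ^ 2 * P))) := Nat.mul_le_mul hd (Nat.mul_le_mul_left _ hD)
      _ = d * ((v * u) * (m ^ 2 * (P * P))) := by ring
      _ = d * (64 * m ^ 2 * (q * (P * P))) := by
        rw [hv]
        ring
      _ ≤ d * W := Nat.mul_le_mul_left _ hW2
  have t2 : m * (2 * u * (m * P) * (d * (k * P))) ≤ d * B := by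
    calc m * (2 * u * (m * P) * (d * (k * P))) = d * (m ^ 2 * ((u * (2 * k)) * (P * P))) := by ring
      _ ≤ d * (m ^ 2 * ((u * u) * (P * P))) :=
        Nat.mul_le_mul_left _ (Nat.mul_le_mul_left _ (Nat.mul_le_mul_right _
          (Nat.mul_le_mul_left _ hku)))
      _ = d * B := by rw [hB]
  have t3 : 256 * (d * B) ≤ d * W := by
    calc 256 * (d * B) = d * (256 * B) := by ring
      _ ≤ d * W := Nat.mul_le_mul_left _ hBW
  rw [Nat.mul_add, Nat.mul_add]
  generalize m * (2 * u * (m * P) * D) = a1 at *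
  generalize m * (2 * u * (m * P) * (d * (k * P))) = a2 at *
  generalize d * B = a3 at *
  generalize d * W = a4 at *
  omega

theorem numU : S_numU := by
  intro E m hE hm hc
  have hm1 : 1 ≤ m := by omega
  constructor
  · refine (Pool.Agent.H55.FE.num E m ((E + 2) ^ (2 * (E + 2)) * m ^ (2 * E + 2)) hE hm1
      (Nat.le_self_pow (by omega) _)).2.2.2.2
  intro d hd
  have hd2 := d_lo hE hm1 hd
  have hmm : m ≤ m ^ 2 := by nlinarith
  have hmd : 64 * m ≤ d := by omega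
  have hEm : E ≤ m := by omega
  have hE1m : E + 1 ≤ m := by omega
  have hKc := Pool.Agent.H55.FE.Kc_le hE hm1
  have hsz := sz_le_pow E m
  have hs := sz_up hm hc
  have hN := Nn_up hm hc
  have hD := dm_bd hE hm hc
  have hY := Y_up hE hm hc
  have hcB := cB_up hm hc
  have hS := Sz_up hm hc
  have hF : (E + 1).factorial ≤ m ^ (E + 1) :=
    (Nat.factorial_le_pow (E + 1)).trans (Nat.pow_le_pow_left hE1m _)
  have hmE : m * m ^ E = m ^ (E + 1) := by rw [pow_succ, mul_comm]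
  have e1 : 4 ^ (E + 1) = 2 ^ (E + 1) * 2 ^ (E + 1) := by
    rw [← mul_pow]
    norm_num
  have e2 : 32 ^ (E + 1) * 2 ^ (E + 1) = 64 * 64 ^ E := by
    rw [← mul_pow, pow_succ]
    ring
  have e3 : 2 ^ (E + 2) = 2 * 2 ^ (E + 1) := by rw [pow_succ, mul_comm]
  have e4 : m ^ (E + 2) = m * m ^ (E + 1) := by rw [pow_succ, mul_comm]
  have f2 : 4 * (2 ^ (E + 1) * 2 ^ (E + 1)) ≤ 64 ^ E := by
    have h1 : 16 ≤ 16 ^ E := by
      calc 16 = 16 ^ 1 := by norm_num
        _ ≤ 16 ^ E := Nat.pow_le_pow_right (by norm_num) hE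
    calc 4 * (2 ^ (E + 1) * 2 ^ (E + 1)) = 16 * 4 ^ E := by
          rw [← mul_pow, pow_succ]
          ring
      _ ≤ 16 ^ E * 4 ^ E := Nat.mul_le_mul_right _ h1
      _ = 64 ^ E := by
          rw [← mul_pow]
          norm_num
  have f3 : 2 * (E + 1) ≤ 2 ^ (E + 1) := by
    have : E + 1 ≤ 2 ^ E := Nat.lt_two_pow_self
    rw [pow_succ]
    omega
  have f4 : 4 ≤ 2 ^ (E + 1) := by omega
  have hT : 64 ^ E * (m ^ (E + 1) * m ^ (E + 1)) ≤ d ^ E := by
    rw [← pow_add, show E + 1 + (E + 1) = 2 * E + 2 by ring]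
    exact hd
  have hqd : d * (64 ^ E * (m ^ (E + 1) * m ^ (E + 1))) ≤ d ^ (E + 1) := by
    rw [pow_succ d E, mul_comm (d ^ E)]
    exact Nat.mul_le_mul_left _ hT
  have hW2 : 64 * m ^ 2 * (64 ^ E * (m ^ (E + 1) * m ^ (E + 1))) ≤ d ^ (E + 1) :=
    (Nat.mul_le_mul_right _ hd2).trans hqd
  obtain ⟨B, hB⟩ : ∃ B, B = m ^ 2 * ((2 ^ (E + 1) * 2 ^ (E + 1)) * (m ^ (E + 1) * m ^ (E + 1))) :=
    ⟨_, rfl⟩
  have hBW : 256 * B ≤ d ^ (E + 1) := by
    rw [hB]
    calc 256 * (m ^ 2 * ((2 ^ (E + 1) * 2 ^ (E + 1)) * (m ^ (E + 1) * m ^ (E + 1))))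
        = 64 * m ^ 2 * ((4 * (2 ^ (E + 1) * 2 ^ (E + 1))) * (m ^ (E + 1) * m ^ (E + 1))) := by ring
      _ ≤ 64 * m ^ 2 * (64 ^ E * (m ^ (E + 1) * m ^ (E + 1))) :=
        Nat.mul_le_mul_left _ (Nat.mul_le_mul_right _ f2)
      _ ≤ d ^ (E + 1) := hW2
  rw [e1] at hN
  rw [e3, e4] at hS
  have hR : Rg E m (Pool.Agent.H55.FE.Kc E m) ≤ (E + 1) * m ^ (E + 1) := by
    unfold Rg
    calc Pool.Agent.H55.FE.Kc E m + sz E m ≤ E * m ^ (E + 1) + m ^ (E + 1) :=
          Nat.add_le_add hKc hsz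
      _ = _ := by ring
  have hKF : (E + 1).factorial * Pool.Agent.H55.FE.Kc E m ≤
      m ^ (E + 1) * ((E + 1) * m ^ (E + 1)) :=
    Nat.mul_le_mul hF (hKc.trans (Nat.mul_le_mul_right _ (by omega)))
  have hd1 : 1 ≤ d := by omega
  have hF0 : 0 < (E + 1).factorial := Nat.factorial_pos _
  -- the excess
  have hX : ∀ x, x ≤ d → (E + 1).factorial * Xg E m (cA E m) (cB E m) (2 * (E + 1) * m + m) x ≤
      m * (2 ^ (E + 1) * 2 ^ (E + 1) * (m ^ (E + 1) * m ^ (E + 1))) +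
        m * (2 * 2 ^ (E + 1) * (m ^ E * m ^ (E + 1))) +
      2 ^ (E + 1) * m * (m ^ (E + 1) * m ^ (E + 1)) +
        d * (2 * 2 ^ (E + 1) * (m ^ E * m ^ (E + 1))) := by
    intro x hx
    unfold Xg
    calc (E + 1).factorial * (m * (Nn E (2 * (E + 1) * m + m) + Yg E m (cA E m)) + cB E m +
          x * Yg E m (cA E m)) =
        m * ((E + 1).factorial * Nn E (2 * (E + 1) * m + m)) +
          m * ((E + 1).factorial * Yg E m (cA E m)) + (E + 1).factorial * cB E m +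
          x * ((E + 1).factorial * Yg E m (cA E m)) := by ring
      _ ≤ _ := Nat.add_le_add (Nat.add_le_add (Nat.add_le_add (Nat.mul_le_mul_left _ hN)
          (Nat.mul_le_mul_left _ hY)) hcB) (Nat.mul_le_mul hx hY)
  refine ⟨hd1, fun e hed hde => ?_, ?_, ?_⟩
  · have h2mE : 2 * (E + 1) * m ≤ d := by nlinarith
    have hbern := bern (k := E + 1) h2mE hd1 hde (by omega)
    obtain ⟨Z, hZ⟩ : ∃ Z, Z = Rg E m (Pool.Agent.H55.FE.Kc E m) * sz E m +
        Pool.Agent.H55.FE.Kc E m + Xg E m (cA E m) (cB E m) (2 * (E + 1) * m + m) (e + 1) :=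
      ⟨_, rfl⟩
    have hFZ : (E + 1).factorial * Z ≤ 2 ^ (E + 1) * m ^ (E + 1) * ((E + 1) * m ^ (E + 1)) +
        m ^ (E + 1) * ((E + 1) * m ^ (E + 1)) +
        (m * (2 ^ (E + 1) * 2 ^ (E + 1) * (m ^ (E + 1) * m ^ (E + 1))) +
          m * (2 * 2 ^ (E + 1) * (m ^ E * m ^ (E + 1))) +
          2 ^ (E + 1) * m * (m ^ (E + 1) * m ^ (E + 1)) +
          d * (2 * 2 ^ (E + 1) * (m ^ E * m ^ (E + 1)))) := by
      rw [hZ]
      calc _ = (E + 1).factorial * sz E m * Rg E m (Pool.Agent.H55.FE.Kc E m) +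
            (E + 1).factorial * Pool.Agent.H55.FE.Kc E m +
            (E + 1).factorial * Xg E m (cA E m) (cB E m) (2 * (E + 1) * m + m) (e + 1) := by ring
        _ ≤ _ := Nat.add_le_add (Nat.add_le_add (Nat.mul_le_mul hs hR) hKF) (hX _ (by omega))
    have h8 : 8 * m * ((E + 1).factorial * Z) ≤ (E + 1) * d ^ (E + 1) :=
      (Nat.mul_le_mul_left _ hFZ).trans
        (arith1 hm1 (by omega) f4 f2 hmE hB hBW hqd)
    have hNn := Nn_ge_pow E e
    have h9 : 2 * ((m + E) * Z) ≤ (E + 1) * Nn E e := by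
      refine le_of_mul_le_mul_left (?_ : 2 * (E + 1).factorial * _ ≤ 2 * (E + 1).factorial * _)
        (by omega)
      calc 2 * (E + 1).factorial * (2 * ((m + E) * Z)) = 4 * (m + E) * ((E + 1).factorial * Z) := by
            ring
        _ ≤ 8 * m * ((E + 1).factorial * Z) := Nat.mul_le_mul_right _ (by omega)
        _ ≤ (E + 1) * d ^ (E + 1) := h8
        _ ≤ (E + 1) * (2 * (e + 1) ^ (E + 1)) := Nat.mul_le_mul_left _ hbern
        _ ≤ (E + 1) * (2 * ((E + 1).factorial * Nn E e)) :=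
            Nat.mul_le_mul_left _ (Nat.mul_le_mul_left _ hNn)
        _ = 2 * (E + 1).factorial * ((E + 1) * Nn E e) := by ring
    refine ⟨?_, ?_, ?_⟩
    · have := stepU (E := E) hm1 (by omega) h9
      rw [hZ] at this
      exact this
    · have h10 : Rg E m (Pool.Agent.H55.FE.Kc E m) * sz E m ≤ Z := by
        rw [hZ]
        omega
      have h11 : (m + E + 1) * (Rg E m (Pool.Agent.H55.FE.Kc E m) * sz E m) ≤
          (E + 1) * Nn E (e + 1) := by
        calc (m + E + 1) * (Rg E m (Pool.Agent.H55.FE.Kc E m) * sz E m)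
            ≤ 2 * (m + E) * Z := Nat.mul_le_mul (by omega) h10
          _ = 2 * ((m + E) * Z) := by ring
          _ ≤ (E + 1) * Nn E e := h9
          _ ≤ (E + 1) * Nn E (e + 1) := Nat.mul_le_mul_left _ (Nn_mono E (Nat.le_succ e))
      have h13 : E + 1 + m ≤ e + 2 := by omega
      have h14 : (E + 1) * Nn E (e + 1) + m * Nn E (e + 1) ≤ (e + 2) * Nn E (e + 1) := by
        rw [← Nat.add_mul]
        exact Nat.mul_le_mul_right _ h13
      exact (Nat.add_le_add_right h11 _).trans h14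
    · have h12 : 2 * (E + 1) * m + m ≤ 5 * m ^ 2 := by
        rcases hc with rfl | h
        · nlinarith
        · nlinarith
      omega
  · have h1 : (d + 1) ^ (E + 2) ≤ (E + 2).factorial * dm E d := Nn_ge_pow (E + 1) d
    have h2 : (E + 2).factorial * (m * (Sz E m *
        Qg E m (Pool.Agent.H55.FE.Kc E m) (2 * (E + 1) * m + m) d)) ≤ d * d ^ (E + 1) := by
      unfold Qg
      calc (E + 2).factorial * (m * (Sz E m * (dm E (2 * (E + 1) * m + m) +
            d * Rg E m (Pool.Agent.H55.FE.Kc E m)))) =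
          m * ((E + 2).factorial * Sz E m * (dm E (2 * (E + 1) * m + m) +
            d * Rg E m (Pool.Agent.H55.FE.Kc E m))) := by ring
        _ ≤ m * (2 * 2 ^ (E + 1) * (m * m ^ (E + 1)) * (dm E (2 * (E + 1) * m + m) +
            d * ((E + 1) * m ^ (E + 1)))) :=
          Nat.mul_le_mul_left _ (Nat.mul_le_mul hS (Nat.add_le_add_left
            (Nat.mul_le_mul_left _ hR) _))
        _ ≤ d * d ^ (E + 1) := arith3 f3 hB hBW hD e2 hW2 hd2
    have h3 : d * d ^ (E + 1) < (d + 1) ^ (E + 2) := by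
      rw [← pow_succ']
      exact Nat.pow_lt_pow_left (by omega) (by omega)
    exact lt_of_mul_lt_mul_left ((h2.trans_lt h3).trans_le h1) (Nat.zero_le _)
  · have h1 := Nn_ge_pow E d
    refine le_of_mul_le_mul_left (?_ : (E + 1).factorial * _ ≤ (E + 1).factorial * _) hF0
    refine le_trans ?_ ((Nat.pow_le_pow_left (Nat.le_succ d) (E + 1)).trans h1)
    refine le_trans ?_ (arith4 hm1 f4 f3 f2 hmE hB hBW hqd hD e2 hW2)
    unfold Qg
    calc (E + 1).factorial * ((dm E (2 * (E + 1) * m + m) +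
          d * Rg E m (Pool.Agent.H55.FE.Kc E m)) * sz E m + Pool.Agent.H55.FE.Kc E m +
          Xg E m (cA E m) (cB E m) (2 * (E + 1) * m + m) d) =
        (E + 1).factorial * sz E m * (dm E (2 * (E + 1) * m + m) +
          d * Rg E m (Pool.Agent.H55.FE.Kc E m)) +
          (E + 1).factorial * Pool.Agent.H55.FE.Kc E m +
          (E + 1).factorial * Xg E m (cA E m) (cB E m) (2 * (E + 1) * m + m) d := by ring
      _ ≤ _ := Nat.add_le_add (Nat.add_le_add (Nat.mul_le_mul hs (Nat.add_le_add_left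
          (Nat.mul_le_mul_left _ hR) _)) hKF) (hX _ le_rfl)

end Pool.Agent.H93.FU
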