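import Pool.Agent.H55.FU.StmV
import Pool.Agent.H93.FU.NumU

set_option autoImplicit false

/-!
# Project FU (helper55): the fifth numerical statement, part A
-/

namespace Pool.Agent.H93.FU

open Pool.Agent.W608.PR Pool.Agent.H55.FU

theorem n1 {k : ℕ} (hk : 8 ≤ k) : 80 * 150 ^ k ≤ 400 ^ k := by
  induction k, hk using Nat.le_induction with
  | base => norm_num
  | succ k hk ih =>
    calc 80 * 150 ^ (k + 1) = 150 * (80 * 150 ^ k) := by ring
      _ ≤ 400 * 400 ^ k := Nat.mul_le_mul (by norm_num) ih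
      _ = 400 ^ (k + 1) := by ring

theorem n3 {k : ℕ} (hk : 8 ≤ k) : 9600 * k * 90 ^ k ≤ 400 ^ k := by
  induction k, hk using Nat.le_induction with
  | base => norm_num
  | succ k hk ih =>
    calc 9600 * (k + 1) * 90 ^ (k + 1) = 9600 * (90 * (k + 1)) * 90 ^ k := by ring
      _ ≤ 9600 * (400 * k) * 90 ^ k := by
        refine Nat.mul_le_mul_right _ (Nat.mul_le_mul_left _ (by omega))
      _ = 400 * (9600 * k * 90 ^ k) := by ring
      _ ≤ 400 * 400 ^ k := Nat.mul_le_mul_left _ ih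
      _ = 400 ^ (k + 1) := by ring

theorem n4 {k : ℕ} (hk : 8 ≤ k) : 12 * k ^ 2 * 90 ^ k ≤ 400 ^ k := by
  induction k, hk using Nat.le_induction with
  | base => norm_num
  | succ k hk ih =>
    calc 12 * (k + 1) ^ 2 * 90 ^ (k + 1) = 12 * (90 * (k + 1) ^ 2) * 90 ^ k := by ring
      _ ≤ 12 * (400 * k ^ 2) * 90 ^ k := by
        refine Nat.mul_le_mul_right _ (Nat.mul_le_mul_left _ (by nlinarith))
      _ = 400 * (12 * k ^ 2 * 90 ^ k) := by ring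
      _ ≤ 400 * 400 ^ k := Nat.mul_le_mul_left _ ih
      _ = 400 ^ (k + 1) := by ring

theorem vT1 {k M F s DL d : ℕ} (hk : 8 ≤ k) (hF0 : 0 < F) (hFs : F * s ≤ M ^ k)
    (hDL : k ^ (k + 1) * ((k + 1) * F * DL) ≤ 5 ^ (k + 1) * M ^ (2 * k + 2))
    (hd : 400 * M ^ 3 ≤ k ^ 2 * d) (hF : k ^ k ≤ 3 ^ k * F) (hM : M ^ 2 ≤ k ^ 2 * 10 ^ k) :
    16 * (F * s * DL) ≤ d ^ k := by
  have hk0 : 0 < k := by omega
  have e150 : (150 : ℕ) ^ k = 5 ^ k * 10 ^ k * 3 ^ k := by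
    rw [← mul_pow, ← mul_pow]
    norm_num
  refine le_of_mul_le_mul_left (?_ : k ^ (2 * k + 1) * ((k + 1) * F) * _ ≤
    k ^ (2 * k + 1) * ((k + 1) * F) * _) (by positivity)
  calc k ^ (2 * k + 1) * ((k + 1) * F) * (16 * (F * s * DL))
      = 16 * (F * s) * (k ^ (k + 1) * ((k + 1) * F * DL)) * k ^ k := by ring
    _ ≤ 16 * M ^ k * (5 ^ (k + 1) * M ^ (2 * k + 2)) * k ^ k :=
      Nat.mul_le_mul_right _ (Nat.mul_le_mul (Nat.mul_le_mul_left _ hFs) hDL)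
    _ = (M ^ 3) ^ k * (16 * 5 ^ (k + 1) * M ^ 2 * k ^ k) := by ring
    _ ≤ (M ^ 3) ^ k * (16 * 5 ^ (k + 1) * (k ^ 2 * 10 ^ k) * (3 ^ k * F)) :=
      Nat.mul_le_mul_left _ (Nat.mul_le_mul (Nat.mul_le_mul_left _ hM) hF)
    _ = (M ^ 3) ^ k * (80 * 150 ^ k * (k ^ 2 * F)) := by
      rw [e150]
      ring
    _ ≤ (M ^ 3) ^ k * (400 ^ k * (k ^ 2 * F)) :=
      Nat.mul_le_mul_left _ (Nat.mul_le_mul_right _ (n1 hk))
    _ ≤ (M ^ 3) ^ k * (400 ^ k * (k * ((k + 1) * F))) := by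
      refine Nat.mul_le_mul_left _ (Nat.mul_le_mul_left _ ?_)
      rw [← mul_assoc]
      refine Nat.mul_le_mul_right _ ?_
      nlinarith
    _ = (400 * M ^ 3) ^ k * (k * ((k + 1) * F)) := by
      rw [mul_pow]
      ring
    _ ≤ (k ^ 2 * d) ^ k * (k * ((k + 1) * F)) :=
      Nat.mul_le_mul_right _ (Nat.pow_le_pow_left hd _)
    _ = k ^ (2 * k + 1) * ((k + 1) * F) * d ^ k := by
      rw [mul_pow]
      ring

theorem vT1' {k M F s DL d : ℕ} (hk : 8 ≤ k) (hkM : k ≤ M) (hF0 : 0 < F) (hFs : F * s ≤ M ^ k)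
    (hDL : k ^ (k + 1) * ((k + 1) * F * DL) ≤ 5 ^ (k + 1) * M ^ (2 * k + 2))
    (hd : 400 * M ^ 3 ≤ k ^ 2 * d) (hF : k ^ k ≤ 3 ^ k * F) (hM : M ^ 2 ≤ k ^ 2 * 10 ^ k) :
    4 * (M ^ 2 * (F * s * DL)) ≤ d ^ (k + 1) := by
  have hk0 : 0 < k := by omega
  have hM1 : M ≤ k * 10 ^ k := by
    refine le_of_mul_le_mul_left (?_ : k * _ ≤ k * _) hk0
    calc k * M ≤ M * M := Nat.mul_le_mul_right _ hkM
      _ = M ^ 2 := by ring
      _ ≤ k ^ 2 * 10 ^ k := hM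
      _ = k * (k * 10 ^ k) := by ring
  have hk2 : k ≤ 2 ^ k := Nat.lt_two_pow_self.le
  have e300 : (300 : ℕ) ^ k = 5 ^ k * 10 ^ k * 3 ^ k * 2 ^ k := by
    rw [← mul_pow, ← mul_pow, ← mul_pow]
    norm_num
  refine le_of_mul_le_mul_left (?_ : k ^ (2 * k + 2) * ((k + 1) * F) * _ ≤
    k ^ (2 * k + 2) * ((k + 1) * F) * _) (by positivity)
  calc k ^ (2 * k + 2) * ((k + 1) * F) * (4 * (M ^ 2 * (F * s * DL)))
      = 4 * M ^ 2 * (F * s) * (k ^ (k + 1) * ((k + 1) * F * DL)) * k ^ (k + 1) := by ring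
    _ ≤ 4 * M ^ 2 * M ^ k * (5 ^ (k + 1) * M ^ (2 * k + 2)) * k ^ (k + 1) :=
      Nat.mul_le_mul_right _ (Nat.mul_le_mul (Nat.mul_le_mul_left _ hFs) hDL)
    _ = (M ^ 3) ^ (k + 1) * (4 * 5 ^ (k + 1) * M * (k * k ^ k)) := by ring
    _ ≤ (M ^ 3) ^ (k + 1) * (4 * 5 ^ (k + 1) * (k * 10 ^ k) * ((k + 1) * (3 ^ k * F))) :=
      Nat.mul_le_mul_left _ (Nat.mul_le_mul (Nat.mul_le_mul_left _ hM1)
        (Nat.mul_le_mul (Nat.le_succ k) hF))
    _ ≤ (M ^ 3) ^ (k + 1) * (4 * 5 ^ (k + 1) * (2 ^ k * 10 ^ k) * ((k + 1) * (3 ^ k * F))) :=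
      Nat.mul_le_mul_left _ (Nat.mul_le_mul_right _ (Nat.mul_le_mul_left _
        (Nat.mul_le_mul_right _ hk2)))
    _ = (M ^ 3) ^ (k + 1) * (20 * 300 ^ k * ((k + 1) * F)) := by
      rw [e300]
      ring
    _ ≤ (M ^ 3) ^ (k + 1) * (400 * 400 ^ k * ((k + 1) * F)) :=
      Nat.mul_le_mul_left _ (Nat.mul_le_mul_right _ (Nat.mul_le_mul (by norm_num)
        (Nat.pow_le_pow_left (by norm_num) _)))
    _ = (400 * M ^ 3) ^ (k + 1) * ((k + 1) * F) := by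
      rw [mul_pow 400]
      ring
    _ ≤ (k ^ 2 * d) ^ (k + 1) * ((k + 1) * F) :=
      Nat.mul_le_mul_right _ (Nat.pow_le_pow_left hd _)
    _ = k ^ (2 * k + 2) * ((k + 1) * F) * d ^ (k + 1) := by
      rw [mul_pow]
      ring

theorem vA {E M F s a : ℕ} (hM0 : 1 < M) (hFs : F * s ≤ (M - 1) ^ (E + 1))
    (ha : (M - 1) * a = (E + 1) * s) : F ^ 3 * (a * s ^ 2) ≤ (E + 1) * M ^ (3 * E + 2) := by
  have h1 : F ^ 3 * (a * s ^ 2) ≤ (E + 1) * (M - 1) ^ (3 * E + 2) := by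
    refine le_of_mul_le_mul_left (?_ : (M - 1) * _ ≤ (M - 1) * _) (by omega)
    calc (M - 1) * (F ^ 3 * (a * s ^ 2)) = F ^ 3 * (((M - 1) * a) * s ^ 2) := by ring
      _ = (E + 1) * ((F * s) * (F * s) * (F * s)) := by
        rw [ha]
        ring
      _ ≤ (E + 1) * ((M - 1) ^ (E + 1) * (M - 1) ^ (E + 1) * (M - 1) ^ (E + 1)) :=
        Nat.mul_le_mul_left _ (Nat.mul_le_mul (Nat.mul_le_mul hFs hFs) hFs)
      _ = (M - 1) * ((E + 1) * (M - 1) ^ (3 * E + 2)) := by ring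
  exact h1.trans (Nat.mul_le_mul_left _ (Nat.pow_le_pow_left (Nat.sub_le _ _) _))

theorem vT2 {E M F s a d : ℕ} (hk : 8 ≤ E + 1) (hF0 : 0 < F)
    (hA : F ^ 3 * (a * s ^ 2) ≤ (E + 1) * M ^ (3 * E + 2))
    (hd : 400 * M ^ 3 ≤ (E + 1) ^ 2 * d) (hF : (E + 1) ^ (E + 1) ≤ 3 ^ (E + 1) * F)
    (hM : M ^ 2 ≤ (E + 1) ^ 2 * 10 ^ (E + 1)) :
    24 * (F * (a * s ^ 2)) ≤ d ^ E := by
  have e90 : (90 : ℕ) ^ (E + 1) = 9 ^ (E + 1) * 10 ^ (E + 1) := by
    rw [← mul_pow]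
    norm_num
  have e9 : (9 : ℕ) ^ (E + 1) = 3 ^ (E + 1) * 3 ^ (E + 1) := by
    rw [← mul_pow]
    norm_num
  have h3 := n3 hk
  have h3' : 24 * (E + 1) * 90 ^ (E + 1) ≤ 400 ^ E := by
    refine le_of_mul_le_mul_left (?_ : 400 * _ ≤ 400 * _) (by norm_num)
    calc 400 * (24 * (E + 1) * 90 ^ (E + 1)) = 9600 * (E + 1) * 90 ^ (E + 1) := by ring
      _ ≤ 400 ^ (E + 1) := h3
      _ = 400 * 400 ^ E := by ring
  have key : 24 * (E + 1) ^ (2 * E + 1) * M ^ 2 ≤ 400 ^ E * F ^ 2 := by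
    refine le_of_mul_le_mul_left (?_ : 9 ^ (E + 1) * _ ≤ 9 ^ (E + 1) * _) (by positivity)
    calc 9 ^ (E + 1) * (24 * (E + 1) ^ (2 * E + 1) * M ^ 2)
        ≤ 9 ^ (E + 1) * (24 * (E + 1) ^ (2 * E + 1) * ((E + 1) ^ 2 * 10 ^ (E + 1))) :=
          Nat.mul_le_mul_left _ (Nat.mul_le_mul_left _ hM)
      _ = 24 * (E + 1) * 90 ^ (E + 1) * ((E + 1) ^ (E + 1) * (E + 1) ^ (E + 1)) := by
        rw [e90]
        ring
      _ ≤ 400 ^ E * ((3 ^ (E + 1) * F) * (3 ^ (E + 1) * F)) :=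
        Nat.mul_le_mul h3' (Nat.mul_le_mul hF hF)
      _ = 9 ^ (E + 1) * (400 ^ E * F ^ 2) := by
        rw [e9]
        ring
  refine le_of_mul_le_mul_left (?_ : F ^ 2 * (E + 1) ^ (2 * E) * _ ≤
    F ^ 2 * (E + 1) ^ (2 * E) * _) (by positivity)
  calc F ^ 2 * (E + 1) ^ (2 * E) * (24 * (F * (a * s ^ 2)))
      = 24 * (E + 1) ^ (2 * E) * (F ^ 3 * (a * s ^ 2)) := by ring
    _ ≤ 24 * (E + 1) ^ (2 * E) * ((E + 1) * M ^ (3 * E + 2)) := Nat.mul_le_mul_left _ hA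
    _ = (M ^ 3) ^ E * (24 * (E + 1) ^ (2 * E + 1) * M ^ 2) := by ring
    _ ≤ (M ^ 3) ^ E * (400 ^ E * F ^ 2) := Nat.mul_le_mul_left _ key
    _ = (400 * M ^ 3) ^ E * F ^ 2 := by
      rw [mul_pow]
      ring
    _ ≤ ((E + 1) ^ 2 * d) ^ E * F ^ 2 := Nat.mul_le_mul_right _ (Nat.pow_le_pow_left hd _)
    _ = F ^ 2 * (E + 1) ^ (2 * E) * d ^ E := by
      rw [mul_pow, ← pow_mul]
      ring

theorem vT2' {E M F s a d : ℕ} (hk : 8 ≤ E + 1) (hkM : E + 1 ≤ M) (hF0 : 0 < F)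
    (hA : F ^ 3 * (a * s ^ 2) ≤ (E + 1) * M ^ (3 * E + 2))
    (hd : 400 * M ^ 3 ≤ (E + 1) ^ 2 * d) (hF : (E + 1) ^ (E + 1) ≤ 3 ^ (E + 1) * F)
    (hM : M ^ 2 ≤ (E + 1) ^ 2 * 10 ^ (E + 1)) :
    12 * (M ^ 2 * (F * (a * s ^ 2))) ≤ d ^ (E + 1) := by
  have e90 : (90 : ℕ) ^ (E + 1) = 9 ^ (E + 1) * 10 ^ (E + 1) := by
    rw [← mul_pow]
    norm_num
  have e9 : (9 : ℕ) ^ (E + 1) = 3 ^ (E + 1) * 3 ^ (E + 1) := by
    rw [← mul_pow]
    norm_num
  have h4 := n4 hk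
  have hM1 : M * (E + 1) ≤ (E + 1) ^ 2 * 10 ^ (E + 1) := by
    refine le_trans ?_ hM
    rw [sq]
    exact Nat.mul_le_mul_left _ hkM
  have key : 12 * (E + 1) ^ (2 * E + 3) * M ≤ 400 ^ (E + 1) * F ^ 2 := by
    refine le_of_mul_le_mul_left (?_ : 9 ^ (E + 1) * _ ≤ 9 ^ (E + 1) * _) (by positivity)
    calc 9 ^ (E + 1) * (12 * (E + 1) ^ (2 * E + 3) * M)
        = 9 ^ (E + 1) * (12 * (E + 1) ^ (2 * E + 2) * (M * (E + 1))) := by ring
      _ ≤ 9 ^ (E + 1) * (12 * (E + 1) ^ (2 * E + 2) * ((E + 1) ^ 2 * 10 ^ (E + 1))) :=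
          Nat.mul_le_mul_left _ (Nat.mul_le_mul_left _ hM1)
      _ = 12 * (E + 1) ^ 2 * 90 ^ (E + 1) * ((E + 1) ^ (E + 1) * (E + 1) ^ (E + 1)) := by
        rw [e90]
        ring
      _ ≤ 400 ^ (E + 1) * ((3 ^ (E + 1) * F) * (3 ^ (E + 1) * F)) :=
        Nat.mul_le_mul h4 (Nat.mul_le_mul hF hF)
      _ = 9 ^ (E + 1) * (400 ^ (E + 1) * F ^ 2) := by
        rw [e9]
        ring
  refine le_of_mul_le_mul_left (?_ : F ^ 2 * (E + 1) ^ (2 * E + 2) * _ ≤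
    F ^ 2 * (E + 1) ^ (2 * E + 2) * _) (by positivity)
  calc F ^ 2 * (E + 1) ^ (2 * E + 2) * (12 * (M ^ 2 * (F * (a * s ^ 2))))
      = 12 * (E + 1) ^ (2 * E + 2) * M ^ 2 * (F ^ 3 * (a * s ^ 2)) := by ring
    _ ≤ 12 * (E + 1) ^ (2 * E + 2) * M ^ 2 * ((E + 1) * M ^ (3 * E + 2)) :=
      Nat.mul_le_mul_left _ hA
    _ = (M ^ 3) ^ (E + 1) * (12 * (E + 1) ^ (2 * E + 3) * M) := by ring
    _ ≤ (M ^ 3) ^ (E + 1) * (400 ^ (E + 1) * F ^ 2) := Nat.mul_le_mul_left _ key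
    _ = (400 * M ^ 3) ^ (E + 1) * F ^ 2 := by
      rw [mul_pow 400]
      ring
    _ ≤ ((E + 1) ^ 2 * d) ^ (E + 1) * F ^ 2 := Nat.mul_le_mul_right _ (Nat.pow_le_pow_left hd _)
    _ = F ^ 2 * (E + 1) ^ (2 * E + 2) * d ^ (E + 1) := by
      rw [mul_pow, ← pow_mul]
      ring

/-- the lower bound of the degree -/
theorem d_loV {E m d : ℕ} (hE : 7 ≤ E) (hm : E + 3 ≤ m)
    (hd : 1024 * m * (E + 2 + m) ^ 2 ≤ (E + 2) ^ 2 * d) :
    401 * (m + E + 1) ^ 3 ≤ (E + 1) ^ 2 * d := by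
  have h1 : 64 * (E + 2) ^ 2 ≤ 81 * (E + 1) ^ 2 := by nlinarith
  have h2 : m + E + 1 ≤ 2 * m := by omega
  have h3 : (m + E + 1) ^ 2 ≤ (E + 2 + m) ^ 2 := Nat.pow_le_pow_left (by omega) _
  refine le_of_mul_le_mul_left (?_ : 81 * (E + 2) ^ 2 * _ ≤ 81 * (E + 2) ^ 2 * _) (by positivity)
  calc 81 * (E + 2) ^ 2 * (401 * (m + E + 1) ^ 3)
      = 81 * 401 * (m + E + 1) * (m + E + 1) ^ 2 * (E + 2) ^ 2 := by ring
    _ ≤ 64 * 512 * (m + E + 1) * (m + E + 1) ^ 2 * (E + 2) ^ 2 := by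
      refine Nat.mul_le_mul_right _ (Nat.mul_le_mul_right _ (Nat.mul_le_mul_right _ (by norm_num)))
    _ ≤ 64 * 512 * (2 * m) * (E + 2 + m) ^ 2 * (E + 2) ^ 2 :=
      Nat.mul_le_mul_right _ (Nat.mul_le_mul (Nat.mul_le_mul_left _ h2) h3)
    _ = (1024 * m * (E + 2 + m) ^ 2) * (64 * (E + 2) ^ 2) := by ring
    _ ≤ ((E + 2) ^ 2 * d) * (81 * (E + 1) ^ 2) := Nat.mul_le_mul hd h1
    _ = 81 * (E + 2) ^ 2 * ((E + 1) ^ 2 * d) := by ring

section

variable {E m L0 : ℕ}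

theorem sz_upV (hm : 1 ≤ m) : (E + 1).factorial * sz E m ≤ (m + E + 1 - 1) ^ (E + 1) := by
  rw [Nat.add_sub_cancel]
  exact choose_up (m + E) (E + 1)

theorem a_eqV (hm : 1 ≤ m) : (m + E + 1 - 1) * aa E m = (E + 1) * sz E m := by
  have h := Nat.add_one_mul_choose_eq (m - 1 + E) E
  unfold aa sz
  rw [show m + E + 1 - 1 = m - 1 + E + 1 by omega, show m + E = m - 1 + E + 1 by omega, h]
  ring

theorem dmL_V (_hE : 7 ≤ E) (hm : E + 3 ≤ m) (hL2 : (E + 1) * L0 ≤ 4 * (m + E + 1) ^ 2) :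
    (E + 1) ^ (E + 1 + 1) * ((E + 1 + 1) * (E + 1).factorial * dm E (L0 + m)) ≤
      5 ^ (E + 1 + 1) * (m + E + 1) ^ (2 * (E + 1) + 2) := by
  have h1 : (E + 1 + 1) * (E + 1).factorial * dm E (L0 + m) ≤ (L0 + m + E + 2) ^ (E + 2) := by
    have h := choose_up (L0 + m + E + 2) (E + 2)
    rw [Nat.factorial_succ] at h
    exact h
  have h2 : (E + 1) * (L0 + m + E + 2) ≤ 5 * (m + E + 1) ^ 2 := by
    have h3 : (E + 1) * (m + E + 2) ≤ (m + E + 1) ^ 2 := by nlinarith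
    calc (E + 1) * (L0 + m + E + 2) = (E + 1) * L0 + (E + 1) * (m + E + 2) := by ring
      _ ≤ 4 * (m + E + 1) ^ 2 + (m + E + 1) ^ 2 := Nat.add_le_add hL2 h3
      _ = 5 * (m + E + 1) ^ 2 := by ring
  calc (E + 1) ^ (E + 1 + 1) * ((E + 1 + 1) * (E + 1).factorial * dm E (L0 + m))
      ≤ (E + 1) ^ (E + 1 + 1) * (L0 + m + E + 2) ^ (E + 2) := Nat.mul_le_mul_left _ h1
    _ = ((E + 1) * (L0 + m + E + 2)) ^ (E + 2) := by rw [mul_pow]
    _ ≤ (5 * (m + E + 1) ^ 2) ^ (E + 2) := Nat.pow_le_pow_left h2 _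
    _ = 5 ^ (E + 1 + 1) * (m + E + 1) ^ (2 * (E + 1) + 2) := by
      rw [mul_pow, ← pow_mul]
      ring

theorem sz_geV (E m : ℕ) : m ≤ sz E m := by
  induction E with
  | zero =>
    unfold sz
    simp
  | succ E ih =>
    refine ih.trans ?_
    unfold sz
    rw [show m + (E + 1) = m + E + 1 by ring, Nat.choose_succ_succ' (m + E) (E + 1)]
    exact Nat.le_add_right _ _

theorem Nn_le_dmV (E L : ℕ) : Nn E L ≤ dm E L := by
  unfold Nn dm
  rw [show L + E + 2 = L + E + 1 + 1 by ring, Nat.choose_succ_succ' (L + E + 1) (E + 1)]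
  exact Nat.le_add_right _ _

end

/-- Part A of the fifth numerical statement, with the estimates that serve for part B. -/
theorem numVA (E m L0 : ℕ) (hE : 7 ≤ E) (hm : E + 3 ≤ m)
    (h10 : (m + E + 1) ^ 2 ≤ (E + 1) ^ 2 * 10 ^ (E + 1))
    (hL1 : 3 * (m + E + 1) ^ 2 ≤ (E + 1) * L0) (hL2 : (E + 1) * L0 ≤ 4 * (m + E + 1) ^ 2) :
    2 * kA E m ≤ Nn E L0 ∧
    ∀ d, 1024 * m * (E + 2 + m) ^ 2 ≤ (E + 2) ^ 2 * d →
      1 ≤ d ∧ m * (Sz E m * Qg E m (kA E m) (L0 + m) d) < dm E d ∧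
      Qg E m (kA E m) (L0 + m) d * sz E m + kA E m + Xg E m (cA E m) (cB E m) (L0 + m) d ≤
        Nn E d := by
  have hm1 : 1 ≤ m := by omega
  have hF0 : 0 < (E + 1).factorial := Nat.factorial_pos _
  have hFs := sz_upV (E := E) hm1
  have ha := a_eqV (E := E) hm1
  have hFs' : (E + 1).factorial * sz E m ≤ (m + E + 1) ^ (E + 1) :=
    hFs.trans (Nat.pow_le_pow_left (Nat.sub_le _ _) _)
  have hF := self_pow_le (E + 1)
  have hms := sz_geV E m
  have hs1 : 1 ≤ sz E m := hm1.trans hms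
  have ha1 : 1 ≤ aa E m := by
    unfold aa
    exact Nat.choose_pos (by omega)
  have h2a : 2 * aa E m < sz E m := by
    have h1 : (2 * (E + 1) + 1) * aa E m ≤ (E + 1) * sz E m := by
      rw [← ha]
      exact Nat.mul_le_mul_right _ (by omega)
    by_contra hcon
    push Not at hcon
    have h2 : (2 * (E + 1) + 1) * sz E m ≤ (2 * (E + 1) + 1) * (2 * aa E m) :=
      Nat.mul_le_mul_left _ hcon
    have h3 : (2 * (E + 1) + 1) * (2 * aa E m) = 2 * ((2 * (E + 1) + 1) * aa E m) := by ring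
    have h4 : (2 * (E + 1) + 1) * sz E m = 2 * ((E + 1) * sz E m) + sz E m := by ring
    omega
  have hkA : kA E m = aa E m * sz E m + 1 := rfl
  have hcA : cA E m = aa E m * sz E m := rfl
  have hss : 1 ≤ aa E m * sz E m := Nat.mul_pos ha1 hs1
  have hsa : sz E m ≤ aa E m * sz E m := Nat.le_mul_of_pos_left _ ha1
  constructor
  · have h1 : 2 * kA E m ≤ sz E m ^ 2 := by
      have h2 : (2 * aa E m + 1) * sz E m ≤ sz E m * sz E m := Nat.mul_le_mul_right _ h2a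
      have h3 : (2 * aa E m + 1) * sz E m = 2 * (aa E m * sz E m) + sz E m := by ring
      rw [sq, hkA]
      omega
    refine h1.trans ?_
    have h2 := Nn_ge_pow E L0
    refine le_of_mul_le_mul_left (?_ : (E + 1) ^ (E + 1) * (E + 1).factorial * _ ≤
      (E + 1) ^ (E + 1) * (E + 1).factorial * _) (by positivity)
    calc (E + 1) ^ (E + 1) * (E + 1).factorial * sz E m ^ 2
        ≤ 3 ^ (E + 1) * (E + 1).factorial * (E + 1).factorial * sz E m ^ 2 :=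
          Nat.mul_le_mul_right _ (Nat.mul_le_mul_right _ hF)
      _ = 3 ^ (E + 1) * (((E + 1).factorial * sz E m) * ((E + 1).factorial * sz E m)) := by ring
      _ ≤ 3 ^ (E + 1) * ((m + E + 1) ^ (E + 1) * (m + E + 1) ^ (E + 1)) :=
          Nat.mul_le_mul_left _ (Nat.mul_le_mul hFs' hFs')
      _ = (3 * (m + E + 1) ^ 2) ^ (E + 1) := by
          rw [mul_pow 3, sq (m + E + 1), mul_pow (m + E + 1)]
      _ ≤ ((E + 1) * L0) ^ (E + 1) := Nat.pow_le_pow_left hL1 _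
      _ = (E + 1) ^ (E + 1) * L0 ^ (E + 1) := by rw [mul_pow]
      _ ≤ (E + 1) ^ (E + 1) * (L0 + 1) ^ (E + 1) :=
          Nat.mul_le_mul_left _ (Nat.pow_le_pow_left (Nat.le_succ _) _)
      _ ≤ (E + 1) ^ (E + 1) * ((E + 1).factorial * Nn E L0) := Nat.mul_le_mul_left _ h2
      _ = (E + 1) ^ (E + 1) * (E + 1).factorial * Nn E L0 := by ring
  intro d hd
  have hd4 : 400 * (m + E + 1) ^ 3 ≤ (E + 1) ^ 2 * d :=
    (Nat.mul_le_mul_right _ (by norm_num)).trans (d_loV hE hm hd)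
  have hDL := dmL_V hE hm hL2
  have hA := vA (E := E) (M := m + E + 1) (by omega) hFs ha
  have hkM : E + 1 ≤ m + E + 1 := by omega
  have t1 := vT1 (by omega) hF0 hFs' hDL hd4 hF h10
  have t1' := vT1' (by omega) hkM hF0 hFs' hDL hd4 hF h10
  have t2 := vT2 (by omega) hF0 hA hd4 hF h10
  have t2' := vT2' (by omega) hkM hF0 hA hd4 hF h10
  have hdM : m + E + 1 ≤ d := by
    have h1 : (E + 1) ^ 2 ≤ (m + E + 1) ^ 2 := Nat.pow_le_pow_left hkM _
    refine le_of_mul_le_mul_left (?_ : (m + E + 1) ^ 2 * _ ≤ (m + E + 1) ^ 2 * _) (by positivity)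
    calc (m + E + 1) ^ 2 * (m + E + 1) = (m + E + 1) ^ 3 := by ring
      _ ≤ 400 * (m + E + 1) ^ 3 := Nat.le_mul_of_pos_left _ (by norm_num)
      _ ≤ (E + 1) ^ 2 * d := hd4
      _ ≤ (m + E + 1) ^ 2 * d := Nat.mul_le_mul_right _ h1
  have hd1 : 1 ≤ d := by omega
  have hRg : Rg E m (kA E m) ≤ 3 * (aa E m * sz E m) := by
    unfold Rg
    omega
  have hNn := Nn_ge_pow E d
  have hdW : d ^ (E + 1) ≤ (E + 1).factorial * Nn E d :=
    (Nat.pow_le_pow_left (Nat.le_succ d) _).trans hNn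
  have hFT : 8 * ((E + 1).factorial * (d * Rg E m (kA E m) * sz E m)) ≤ d ^ (E + 1) := by
    calc 8 * ((E + 1).factorial * (d * Rg E m (kA E m) * sz E m))
        ≤ 8 * ((E + 1).factorial * (d * (3 * (aa E m * sz E m)) * sz E m)) :=
          Nat.mul_le_mul_left _ (Nat.mul_le_mul_left _ (Nat.mul_le_mul_right _
            (Nat.mul_le_mul_left _ hRg)))
      _ = 24 * ((E + 1).factorial * (aa E m * sz E m ^ 2)) * d := by ring
      _ ≤ d ^ E * d := Nat.mul_le_mul_right _ t2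
      _ = d ^ (E + 1) := (pow_succ d E).symm
  refine ⟨hd1, ?_, ?_⟩
  · have hmM : m * (m + E + 1) ≤ (m + E + 1) ^ 2 := by
      rw [sq]
      exact Nat.mul_le_mul_right _ (by omega)
    have e1 := Sz_ratio E m
    have e2 := dm_up E d
    have b1 : 4 * (m * (m + E + 1) * ((E + 1).factorial * sz E m * dm E (L0 + m))) ≤
        d ^ (E + 1 + 1) :=
      (Nat.mul_le_mul_left _ (Nat.mul_le_mul_right _ hmM)).trans t1'
    have b2 : 4 * (m * (m + E + 1) * ((E + 1).factorial * (d * Rg E m (kA E m) * sz E m))) ≤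
        d ^ (E + 1 + 1) := by
      calc 4 * (m * (m + E + 1) * ((E + 1).factorial * (d * Rg E m (kA E m) * sz E m)))
          ≤ 4 * ((m + E + 1) ^ 2 * ((E + 1).factorial * (d * (3 * (aa E m * sz E m)) * sz E m))) :=
            Nat.mul_le_mul_left _ (Nat.mul_le_mul hmM (Nat.mul_le_mul_left _
              (Nat.mul_le_mul_right _ (Nat.mul_le_mul_left _ hRg))))
        _ = 12 * ((m + E + 1) ^ 2 * ((E + 1).factorial * (aa E m * sz E m ^ 2))) * d := by ring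
        _ ≤ d ^ (E + 1) * d := Nat.mul_le_mul_right _ t2'
        _ = d ^ (E + 1 + 1) := (pow_succ d (E + 1)).symm
    have b3 : d ^ (E + 1 + 1) < (d + E + 2) * ((E + 1).factorial * Nn E d) := by
      have h1 : 0 < d ^ (E + 1) := Nat.pow_pos hd1
      calc d ^ (E + 1 + 1) = d * d ^ (E + 1) := by rw [pow_succ, mul_comm]
        _ < (d + E + 2) * d ^ (E + 1) := Nat.mul_lt_mul_of_pos_right (by omega) h1
        _ ≤ (d + E + 2) * ((E + 1).factorial * Nn E d) := Nat.mul_le_mul_left _ hdW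
    refine lt_of_mul_lt_mul_left (?_ : (E + 2) * (E + 1).factorial * _ <
      (E + 2) * (E + 1).factorial * _) (Nat.zero_le _)
    have e3 : (E + 2) * (E + 1).factorial * (m * (Sz E m * Qg E m (kA E m) (L0 + m) d)) =
        m * (m + E + 1) * ((E + 1).factorial * sz E m * dm E (L0 + m)) +
          m * (m + E + 1) * ((E + 1).factorial * (d * Rg E m (kA E m) * sz E m)) := by
      calc (E + 2) * (E + 1).factorial * (m * (Sz E m * Qg E m (kA E m) (L0 + m) d))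
          = ((E + 2) * Sz E m) * ((E + 1).factorial * m * Qg E m (kA E m) (L0 + m) d) := by ring
        _ = _ := by
          rw [e1]
          unfold Qg
          ring
    have e4 : (E + 2) * (E + 1).factorial * dm E d =
        (d + E + 2) * ((E + 1).factorial * Nn E d) := by
      calc (E + 2) * (E + 1).factorial * dm E d = ((E + 2) * dm E d) * (E + 1).factorial := by ring
        _ = _ := by
          rw [e2]
          ring
    rw [e3, e4]
    refine lt_of_le_of_lt ?_ b3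
    omega
  · have hT0 : Rg E m (kA E m) ≤ Rg E m (kA E m) * sz E m := Nat.le_mul_of_pos_right _ hs1
    have hY : Yg E m (cA E m) ≤ Rg E m (kA E m) := by
      unfold Yg Rg
      omega
    have c1 : kA E m ≤ d * Rg E m (kA E m) * sz E m := by
      calc kA E m ≤ Rg E m (kA E m) := by
            unfold Rg
            omega
        _ = 1 * Rg E m (kA E m) * 1 := by ring
        _ ≤ d * Rg E m (kA E m) * sz E m := Nat.mul_le_mul (Nat.mul_le_mul_right _ hd1) hs1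
    have c2 : m * Yg E m (cA E m) ≤ d * Rg E m (kA E m) * sz E m := by
      calc m * Yg E m (cA E m) = m * Yg E m (cA E m) * 1 := by ring
        _ ≤ d * Rg E m (kA E m) * sz E m :=
          Nat.mul_le_mul (Nat.mul_le_mul (by omega) hY) hs1
    have c3 : d * Yg E m (cA E m) ≤ d * Rg E m (kA E m) * sz E m := by
      calc d * Yg E m (cA E m) = d * Yg E m (cA E m) * 1 := by ring
        _ ≤ d * Rg E m (kA E m) * sz E m :=
          Nat.mul_le_mul (Nat.mul_le_mul_left _ hY) hs1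
    have c4 : cB E m ≤ d * Rg E m (kA E m) * sz E m := by
      have h1 : aa (E + 1) m = sz E m := by
        unfold aa sz
        rw [show m - 1 + (E + 1) = m + E by omega]
      have h2 : Sz E m ≤ (m + E + 1) * sz E m := by
        rw [← Sz_ratio]
        exact Nat.le_mul_of_pos_left _ (by omega)
      have h3 : sz E m ≤ Rg E m (kA E m) := by
        unfold Rg
        omega
      unfold cB
      rw [h1]
      calc sz E m * Sz E m ≤ sz E m * ((m + E + 1) * sz E m) := Nat.mul_le_mul_left _ h2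
        _ = (m + E + 1) * sz E m * sz E m := by ring
        _ ≤ d * Rg E m (kA E m) * sz E m :=
          Nat.mul_le_mul_right _ (Nat.mul_le_mul hdM h3)
    have c5 : m * Nn E (L0 + m) ≤ sz E m * dm E (L0 + m) :=
      Nat.mul_le_mul hms (Nn_le_dmV E _)
    refine le_of_mul_le_mul_left (?_ : (E + 1).factorial * _ ≤ (E + 1).factorial * _) hF0
    refine le_trans ?_ hdW
    have e5 : Qg E m (kA E m) (L0 + m) d * sz E m + kA E m +
        Xg E m (cA E m) (cB E m) (L0 + m) d ≤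
        2 * (sz E m * dm E (L0 + m)) + 5 * (d * Rg E m (kA E m) * sz E m) := by
      unfold Qg Xg
      have e6 : (dm E (L0 + m) + d * Rg E m (kA E m)) * sz E m =
        sz E m * dm E (L0 + m) + d * Rg E m (kA E m) * sz E m := by ring
      rw [e6, Nat.mul_add]
      omega
    refine (Nat.mul_le_mul_left _ e5).trans ?_
    have e7 : (E + 1).factorial * (2 * (sz E m * dm E (L0 + m)) +
        5 * (d * Rg E m (kA E m) * sz E m)) =
        2 * ((E + 1).factorial * sz E m * dm E (L0 + m)) +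
          5 * ((E + 1).factorial * (d * Rg E m (kA E m) * sz E m)) := by ring
    rw [e7]
    omega

end Pool.Agent.H93.FU
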