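import Pool.Agent.H93.FU.NumVA

set_option autoImplicit false

/-!
# Project FU (helper55): the fifth numerical statement, part B and the statement
-/

namespace Pool.Agent.H93.FU

open Pool.Agent.W608.PR Pool.Agent.H55.FU

/-- Part B of the fifth numerical statement. -/
theorem numVB (E m L0 : ℕ) (hE : 7 ≤ E) (hm : E + 3 ≤ m)
    (h10 : (m + E + 1) ^ 2 ≤ (E + 1) ^ 2 * 10 ^ (E + 1))
    (hL1 : 3 * (m + E + 1) ^ 2 ≤ (E + 1) * L0) (hL2 : (E + 1) * L0 ≤ 4 * (m + E + 1) ^ 2) (d : ℕ)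
    (hd : 1024 * m * (E + 2 + m) ^ 2 ≤ (E + 2) ^ 2 * d) (e : ℕ) (hde : d ≤ e + m) :
    Cndg E m (kA E m) (cA E m) (cB E m) (L0 + m) e := by
  have hm1 : 1 ≤ m := by omega
  have hF0 : 0 < (E + 1).factorial := Nat.factorial_pos _
  have hFs := sz_upV (E := E) hm1
  have ha := a_eqV (E := E) hm1
  have hFs' : (E + 1).factorial * sz E m ≤ (m + E + 1) ^ (E + 1) :=
    hFs.trans (Nat.pow_le_pow_left (Nat.sub_le _ _) _)
  have hF := self_pow_le (E + 1)
  have hms := sz_geV E m
  have hs1 : 1 ≤ sz E m := hm1.trans hms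
  have ha1 : 1 ≤ aa E m := by
    unfold aa
    exact Nat.choose_pos (by omega)
  have hkA : kA E m = aa E m * sz E m + 1 := rfl
  have hcA : cA E m = aa E m * sz E m := rfl
  have hss : 1 ≤ aa E m * sz E m := Nat.mul_pos ha1 hs1
  have hsa : sz E m ≤ aa E m * sz E m := Nat.le_mul_of_pos_left _ ha1
  have hkM : E + 1 ≤ m + E + 1 := by omega
  have hmM : m ≤ m + E + 1 := by omega
  have hM0 : 0 < m + E + 1 := by omega
  -- the lower bound for `e + 1`
  have hd4 : 400 * (m + E + 1) ^ 3 ≤ (E + 1) ^ 2 * (e + 1) := by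
    have h1 := d_loV hE hm hd
    have h2 : (E + 1) ^ 2 * d ≤ (E + 1) ^ 2 * (e + 1) + (E + 1) ^ 2 * m := by
      rw [← Nat.mul_add]
      exact Nat.mul_le_mul_left _ (by omega)
    have h3 : (E + 1) ^ 2 * m ≤ (m + E + 1) ^ 3 := by
      rw [pow_succ (m + E + 1) 2]
      exact Nat.mul_le_mul (Nat.pow_le_pow_left hkM _) hmM
    omega
  have hke : 400 * (m + E + 1) ^ 2 ≤ (E + 1) * (e + 1) := by
    refine le_of_mul_le_mul_left (?_ : (m + E + 1) * _ ≤ (m + E + 1) * _) hM0
    calc (m + E + 1) * (400 * (m + E + 1) ^ 2) = 400 * (m + E + 1) ^ 3 := by ring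
      _ ≤ (E + 1) ^ 2 * (e + 1) := hd4
      _ = (E + 1) * ((E + 1) * (e + 1)) := by ring
      _ ≤ (m + E + 1) * ((E + 1) * (e + 1)) := Nat.mul_le_mul_right _ hkM
  have heM : 400 * (m + E + 1) ≤ e + 1 := by
    refine le_of_mul_le_mul_left (?_ : (m + E + 1) * _ ≤ (m + E + 1) * _) hM0
    calc (m + E + 1) * (400 * (m + E + 1)) = 400 * (m + E + 1) ^ 2 := by ring
      _ ≤ (E + 1) * (e + 1) := hke
      _ ≤ (m + E + 1) * (e + 1) := Nat.mul_le_mul_right _ hkM
  have hDL := dmL_V hE hm hL2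
  have hA := vA (E := E) (M := m + E + 1) (by omega) hFs ha
  have t1 := vT1 (by omega) hF0 hFs' hDL hd4 hF h10
  have t2 := vT2 (by omega) hF0 hA hd4 hF h10
  have hRg : Rg E m (kA E m) ≤ 3 * (aa E m * sz E m) := by
    unfold Rg
    omega
  have hNn := Nn_ge_pow E e
  have hpow : (e + 1) ^ (E + 1) = (e + 1) * (e + 1) ^ E := by rw [pow_succ, mul_comm]
  obtain ⟨W, hW⟩ : ∃ W, W = (E + 1) * (e + 1) ^ (E + 1) := ⟨_, rfl⟩
  -- the terms
  have g1 : 24 * (2 * (m + E) * ((E + 1).factorial * (Rg E m (kA E m) * sz E m))) ≤ W := by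
    calc 24 * (2 * (m + E) * ((E + 1).factorial * (Rg E m (kA E m) * sz E m)))
        ≤ 24 * (2 * (m + E) * ((E + 1).factorial * (3 * (aa E m * sz E m) * sz E m))) :=
          Nat.mul_le_mul_left _ (Nat.mul_le_mul_left _ (Nat.mul_le_mul_left _
            (Nat.mul_le_mul_right _ hRg)))
      _ = 6 * (m + E) * (24 * ((E + 1).factorial * (aa E m * sz E m ^ 2))) := by ring
      _ ≤ 6 * (m + E) * (e + 1) ^ E := Nat.mul_le_mul_left _ t2
      _ ≤ ((E + 1) * (e + 1)) * (e + 1) ^ E := by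
          refine Nat.mul_le_mul_right _ ?_
          have : 1 * (e + 1) ≤ (E + 1) * (e + 1) := Nat.mul_le_mul_right _ (by omega)
          omega
      _ = W := by
          rw [hW, hpow]
          ring
  have g2 : 24 * (2 * (m + E) * ((E + 1).factorial * kA E m)) ≤ W := by
    refine le_trans ?_ g1
    refine Nat.mul_le_mul_left _ (Nat.mul_le_mul_left _ (Nat.mul_le_mul_left _ ?_))
    calc kA E m ≤ Rg E m (kA E m) := by
          unfold Rg
          omega
      _ ≤ Rg E m (kA E m) * sz E m := Nat.le_mul_of_pos_right _ hs1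
  have g3 : 24 * (2 * (m + E) * ((E + 1).factorial * (m * Nn E (L0 + m)))) ≤ W := by
    have h1 : 3 * (m + E + 1) ^ 2 * Nn E (L0 + m) ≤ (E + 1) * (sz E m * dm E (L0 + m)) := by
      have h2 := dm_up E (L0 + m)
      have h3 : E + 2 ≤ sz E m := le_trans (by omega) hms
      calc 3 * (m + E + 1) ^ 2 * Nn E (L0 + m) ≤ (E + 1) * L0 * Nn E (L0 + m) :=
            Nat.mul_le_mul_right _ hL1
        _ = (E + 1) * (L0 * Nn E (L0 + m)) := by ring
        _ ≤ (E + 1) * ((L0 + m + E + 2) * Nn E (L0 + m)) :=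
            Nat.mul_le_mul_left _ (Nat.mul_le_mul_right _ (by omega))
        _ = (E + 1) * ((E + 2) * dm E (L0 + m)) := by rw [h2]
        _ ≤ (E + 1) * (sz E m * dm E (L0 + m)) :=
            Nat.mul_le_mul_left _ (Nat.mul_le_mul_right _ h3)
    calc 24 * (2 * (m + E) * ((E + 1).factorial * (m * Nn E (L0 + m))))
        = 16 * (E + 1).factorial * (3 * ((m + E) * m) * Nn E (L0 + m)) := by ring
      _ ≤ 16 * (E + 1).factorial * (3 * (m + E + 1) ^ 2 * Nn E (L0 + m)) := by
          refine Nat.mul_le_mul_left _ (Nat.mul_le_mul_right _ (Nat.mul_le_mul_left _ ?_))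
          rw [sq]
          exact Nat.mul_le_mul (by omega) hmM
      _ ≤ 16 * (E + 1).factorial * ((E + 1) * (sz E m * dm E (L0 + m))) :=
          Nat.mul_le_mul_left _ h1
      _ = (E + 1) * (16 * ((E + 1).factorial * sz E m * dm E (L0 + m))) := by ring
      _ ≤ (E + 1) * (e + 1) ^ (E + 1) := Nat.mul_le_mul_left _ t1
      _ = W := hW.symm
  have g4 : 24 * (2 * (m + E) * ((E + 1).factorial * ((e + 1) * Yg E m (cA E m)))) ≤ W := by
    have h1 : Yg E m (cA E m) ≤ 2 * (aa E m * sz E m) := by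
      unfold Yg
      omega
    have h2 : 4 * (m + E) ≤ (E + 1) * sz E m := by
      calc 4 * (m + E) ≤ 8 * m := by omega
        _ ≤ (E + 1) * sz E m := Nat.mul_le_mul (by omega) hms
    calc 24 * (2 * (m + E) * ((E + 1).factorial * ((e + 1) * Yg E m (cA E m))))
        ≤ 24 * (2 * (m + E) * ((E + 1).factorial * ((e + 1) * (2 * (aa E m * sz E m))))) :=
          Nat.mul_le_mul_left _ (Nat.mul_le_mul_left _ (Nat.mul_le_mul_left _
            (Nat.mul_le_mul_left _ h1)))
      _ = (4 * (m + E)) * (24 * (E + 1).factorial * (e + 1) * (aa E m * sz E m)) := by ring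
      _ ≤ ((E + 1) * sz E m) * (24 * (E + 1).factorial * (e + 1) * (aa E m * sz E m)) :=
          Nat.mul_le_mul_right _ h2
      _ = (E + 1) * (e + 1) * (24 * ((E + 1).factorial * (aa E m * sz E m ^ 2))) := by ring
      _ ≤ (E + 1) * (e + 1) * (e + 1) ^ E := Nat.mul_le_mul_left _ t2
      _ = W := by
          rw [hW, hpow]
          ring
  have g5 : 24 * (2 * (m + E) * ((E + 1).factorial * (m * Yg E m (cA E m)))) ≤ W := by
    refine le_trans ?_ g4
    exact Nat.mul_le_mul_left _ (Nat.mul_le_mul_left _ (Nat.mul_le_mul_left _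
      (Nat.mul_le_mul_right _ (by omega))))
  have g6 : 24 * (2 * (m + E) * ((E + 1).factorial * cB E m)) ≤ W := by
    have h1 : aa (E + 1) m = sz E m := by
      unfold aa sz
      rw [show m - 1 + (E + 1) = m + E by omega]
    have h2 : Sz E m ≤ (m + E + 1) * sz E m := by
      rw [← Sz_ratio]
      exact Nat.le_mul_of_pos_left _ (by omega)
    have h3 : cB E m ≤ (m + E + 1) * (aa E m * sz E m ^ 2) := by
      unfold cB
      rw [h1]
      calc sz E m * Sz E m ≤ (1 * sz E m) * ((m + E + 1) * sz E m) := by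
            rw [one_mul]
            exact Nat.mul_le_mul_left _ h2
        _ ≤ (aa E m * sz E m) * ((m + E + 1) * sz E m) :=
            Nat.mul_le_mul_right _ (Nat.mul_le_mul_right _ ha1)
        _ = (m + E + 1) * (aa E m * sz E m ^ 2) := by ring
    calc 24 * (2 * (m + E) * ((E + 1).factorial * cB E m))
        ≤ 24 * (2 * (m + E + 1) * ((E + 1).factorial * ((m + E + 1) * (aa E m * sz E m ^ 2)))) :=
          Nat.mul_le_mul_left _ (Nat.mul_le_mul (by omega) (Nat.mul_le_mul_left _ h3))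
      _ = 2 * (m + E + 1) ^ 2 * (24 * ((E + 1).factorial * (aa E m * sz E m ^ 2))) := by ring
      _ ≤ 2 * (m + E + 1) ^ 2 * (e + 1) ^ E := Nat.mul_le_mul_left _ t2
      _ ≤ ((E + 1) * (e + 1)) * (e + 1) ^ E := by
          refine Nat.mul_le_mul_right _ ?_
          omega
      _ = W := by
          rw [hW, hpow]
          ring
  obtain ⟨Z, hZ⟩ : ∃ Z, Z = Rg E m (kA E m) * sz E m + kA E m +
      Xg E m (cA E m) (cB E m) (L0 + m) (e + 1) := ⟨_, rfl⟩
  have h9 : 2 * ((m + E) * Z) ≤ (E + 1) * Nn E e := by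
    refine le_of_mul_le_mul_left (?_ : (E + 1).factorial * _ ≤ (E + 1).factorial * _) hF0
    have h1 : (E + 1).factorial * (2 * ((m + E) * Z)) =
        2 * (m + E) * ((E + 1).factorial * (Rg E m (kA E m) * sz E m)) +
        2 * (m + E) * ((E + 1).factorial * kA E m) +
        2 * (m + E) * ((E + 1).factorial * (m * Nn E (L0 + m))) +
        2 * (m + E) * ((E + 1).factorial * (m * Yg E m (cA E m))) +
        2 * (m + E) * ((E + 1).factorial * cB E m) +
        2 * (m + E) * ((E + 1).factorial * ((e + 1) * Yg E m (cA E m))) := by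
      rw [hZ]
      unfold Xg
      ring
    have h2 : W ≤ (E + 1).factorial * ((E + 1) * Nn E e) := by
      rw [hW]
      calc (E + 1) * (e + 1) ^ (E + 1) ≤ (E + 1) * ((E + 1).factorial * Nn E e) :=
            Nat.mul_le_mul_left _ hNn
        _ = _ := by ring
    rw [h1]
    refine le_trans ?_ h2
    omega
  refine ⟨?_, ?_, ?_⟩
  · have := stepU (E := E) hm1 (by omega) h9
    rw [hZ] at this
    exact this
  · have h10 : Rg E m (kA E m) * sz E m ≤ Z := by
      rw [hZ]
      omega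
    have h11 : (m + E + 1) * (Rg E m (kA E m) * sz E m) ≤ (E + 1) * Nn E (e + 1) := by
      calc (m + E + 1) * (Rg E m (kA E m) * sz E m)
          ≤ 2 * (m + E) * Z := Nat.mul_le_mul (by omega) h10
        _ = 2 * ((m + E) * Z) := by ring
        _ ≤ (E + 1) * Nn E e := h9
        _ ≤ (E + 1) * Nn E (e + 1) := Nat.mul_le_mul_left _ (Nn_mono E (Nat.le_succ e))
    have h13 : E + 1 + m ≤ e + 2 := by omega
    have h14 : (E + 1) * Nn E (e + 1) + m * Nn E (e + 1) ≤ (e + 2) * Nn E (e + 1) := by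
      rw [← Nat.add_mul]
      exact Nat.mul_le_mul_right _ h13
    exact (Nat.add_le_add_right h11 _).trans h14
  · have h1 : (E + 1) * (L0 + m + 1) ≤ (E + 1) * (e + 1) := by
      have h2 : (E + 1) * (m + 1) ≤ (m + E + 1) ^ 2 := by
        rw [sq]
        exact Nat.mul_le_mul hkM (by omega)
      calc (E + 1) * (L0 + m + 1) = (E + 1) * L0 + (E + 1) * (m + 1) := by ring
        _ ≤ 4 * (m + E + 1) ^ 2 + (m + E + 1) ^ 2 := Nat.add_le_add hL2 h2
        _ ≤ 400 * (m + E + 1) ^ 2 := by omega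
        _ ≤ (E + 1) * (e + 1) := hke
    have h3 := Nat.le_of_mul_le_mul_left h1 (by omega)
    omega

theorem numV : S_numV := by
  intro E m L0 hE hm h10 hL1 hL2
  obtain ⟨h1, h2⟩ := numVA E m L0 hE hm h10 hL1 hL2
  refine ⟨h1, fun d hd => ?_⟩
  obtain ⟨h3, h4, h5⟩ := h2 d hd
  exact ⟨h3, fun e _ hde => numVB E m L0 hE hm h10 hL1 hL2 d hd e hde, h4, h5⟩

end Pool.Agent.H93.FU
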